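import Pool.Agent.Y503.GD.Small

/-!
# The generalized Douglas algebra property fails for functions of arbitrarily small norm

There is one bounded outer function `θ` such that for every `ε > 0` some `f` in `H^∞ + θ L^∞` with
`‖f‖ < ε` has `1 / (1 - f)` outside `H^∞ + θ L^∞`: the invertible elements of this algebra do not
contain a neighbourhood of `1`.
-/

set_option autoImplicit false

open MeasureTheory Complex Filter Topology Metric
open scoped ENNReal

namespace Pool.Agent.Results.MP_c4e2dd_an.ArbitrarilySmall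

open Pool.Agent.Results.MP_c4e2dd_an.GDFails

/-- There is a bounded outer function `θ` such that `H^∞ + θ L^∞` is not a generalized Douglas
algebra; moreover for every `ε > 0` there is `f` in `H^∞ + θ L^∞` with `‖f‖ < ε` for which
`1 / (1 - f)` is not in `H^∞ + θ L^∞`. -/
theorem result : ∃ θ : Lp ℂ ∞ mT, IsBddOuter θ ∧ ¬ GDProperty (HinfPlus θ) ∧
    ∀ ε : ℝ, 0 < ε → ∃ f ∈ HinfPlus θ, ‖f‖ < ε ∧
      ¬ ∃ u ∈ HinfPlus θ, u =ᵐ[mT] fun ζ => 1 / (1 - f ζ) := by
  have key : ∀ ε : ℝ, 0 < ε → ∃ f ∈ HinfPlus θL, ‖f‖ < ε ∧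
      ¬ ∃ u ∈ HinfPlus θL, u =ᵐ[mT] fun ζ => 1 / (1 - f ζ) := by
    intro ε hε
    obtain ⟨f, hf, hn, hu⟩ := Pool.Agent.Y503.GD.small (2 * (|Real.log ε| + 1)) (by positivity)
    refine ⟨f, hf, hn.trans_lt ?_, hu⟩
    rw [← Real.lt_log_iff_exp_lt hε]
    have := neg_abs_le (Real.log ε)
    linarith
  refine ⟨θL, θL_outer, fun h => ?_, key⟩
  obtain ⟨f, hf, hn, hu⟩ := key 1 one_pos
  exact hu (h f hf hn)

end Pool.Agent.Results.MP_c4e2dd_an.ArbitrarilySmall
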